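import Pool.Agent.Y387.NE.Core

/-!
# Chordal graphs with a nonnegative efficient real dominating function

For such graphs the packing number, the real domination number, the domination number and the
independent domination number coincide. The definitions of `IsChordal`, `closedSum`,
`realDomNum`, `IsNERD`, `IsDominating` and `domNum` are those of the earlier result
`ChordalNERD`.
-/

set_option autoImplicit false

open Classical Finset

namespace Pool.Agent.Results.MP_24e13c_co.PackingEquality

open Pool.Agent.Results.MP_24e13c_co.ChordalNERD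

variable {V : Type*} [Fintype V]

/-- Packings: the closed neighbourhoods of distinct members of `P` are disjoint. -/
def IsPacking (G : SimpleGraph V) (P : Finset V) : Prop :=
  ∀ p ∈ P, ∀ q ∈ P, p ≠ q → ∀ x, (x = p ∨ G.Adj p x) → (x = q ∨ G.Adj q x) → False

/-- The packing number: the largest size of a packing. -/
noncomputable def packNum (G : SimpleGraph V) : ℕ :=
  sSup {k : ℕ | ∃ P : Finset V, IsPacking G P ∧ P.card = k}

/-- Independent dominating sets. -/
def IsIndDominating (G : SimpleGraph V) (D : Finset V) : Prop :=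
  IsDominating G D ∧ ∀ a ∈ D, ∀ b ∈ D, ¬ G.Adj a b

/-- The independent domination number. -/
noncomputable def indDomNum (G : SimpleGraph V) : ℕ :=
  sInf {k : ℕ | ∃ D : Finset V, IsIndDominating G D ∧ D.card = k}

variable {G : SimpleGraph V}

lemma pack_bdd : BddAbove {k : ℕ | ∃ P : Finset V, IsPacking G P ∧ P.card = k} := by
  refine ⟨Fintype.card V, ?_⟩
  rintro k ⟨P, -, rfl⟩
  exact card_le_univ P

/-- Packings have at most the weight of a NERD-function. -/
lemma pack_le {f : V → ℝ} (hf : IsNERD G f) {P : Finset V} (hP : IsPacking G P) :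
    (P.card : ℝ) ≤ ∑ v, f v := by
  have h1 : (P.card : ℝ) = ∑ d ∈ P, closedSum G f d := by
    rw [Finset.sum_congr rfl (fun d _ => hf.2 d)]
    simp
  have h2 : ∑ d ∈ P, closedSum G f d = ∑ v, (if v ∈ P then (1 : ℝ) else 0) * closedSum G f v := by
    simp [Finset.sum_ite_mem]
  rw [h1, h2, double_count]
  apply Finset.sum_le_sum
  intro v _
  have h3 : closedSum G (fun v => if v ∈ P then (1 : ℝ) else 0) v ≤ 1 := by
    unfold closedSum
    by_cases hex : ∃ p ∈ P, (p = v ∨ G.Adj v p)
    · obtain ⟨p, hp, h⟩ := hex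
      rw [Finset.sum_eq_single_of_mem p]
      · simp [hp]
      · simpa using h
      · intro u hu hup
        rw [Finset.mem_filter] at hu
        have : u ∉ P := by
          intro huP
          refine hP u huP p hp hup v ?_ ?_
          · rcases hu.2 with h | h
            · exact Or.inl h.symm
            · exact Or.inr h.symm
          · rcases h with h | h
            · exact Or.inl h.symm
            · exact Or.inr h.symm
        simp [this]
    · push Not at hex
      rw [Finset.sum_eq_zero]
      · exact zero_le_one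
      · intro u hu
        rw [Finset.mem_filter] at hu
        have : u ∉ P := by
          intro huP
          have := hex u huP
          rcases hu.2 with h | h
          · exact this.1 h
          · exact this.2 h
        simp [this]
  have h4 := hf.1 v
  nlinarith

theorem numbers (hG : IsChordal G) {f : V → ℝ} (hf : IsNERD G f) :
    (packNum G : ℝ) = ∑ v, f v ∧ (domNum G : ℝ) = ∑ v, f v ∧ (indDomNum G : ℝ) = ∑ v, f v := by
  obtain ⟨-, ⟨D, hD1, -, hD2, -, hD3⟩, ⟨P, hP1, -, hP2⟩⟩ := Pool.Agent.Y387.NE.core hG hf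
  have hdom : ∀ E : Finset V, IsDominating G E → ∑ v, f v ≤ (E.card : ℝ) := by
    intro E hE
    have h1 := nerd_weight_le hf (char_closedSum hE)
    simpa using h1
  refine ⟨le_antisymm ?_ ?_, le_antisymm ?_ ?_, le_antisymm ?_ ?_⟩
  · have hne : {k : ℕ | ∃ P : Finset V, IsPacking G P ∧ P.card = k}.Nonempty := ⟨_, P, hP1, rfl⟩
    obtain ⟨Q, hQ, hc⟩ := Nat.sSup_mem hne pack_bdd
    have hc' : Q.card = packNum G := hc
    rw [← hc']
    exact pack_le hf hQ
  · rw [← hP2]
    exact_mod_cast le_csSup (pack_bdd (G := G)) ⟨P, hP1, rfl⟩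
  · rw [← hD3]
    exact_mod_cast Nat.sInf_le (s := {k : ℕ | ∃ D : Finset V, IsDominating G D ∧ D.card = k})
      ⟨D, hD1, rfl⟩
  · obtain ⟨E, hE, hc⟩ := domNum_attained G
    rw [← hc]
    exact hdom E hE
  · rw [← hD3]
    exact_mod_cast Nat.sInf_le (s := {k : ℕ | ∃ D : Finset V, IsIndDominating G D ∧ D.card = k})
      ⟨D, ⟨hD1, hD2⟩, rfl⟩
  · have hne : {k : ℕ | ∃ D : Finset V, IsIndDominating G D ∧ D.card = k}.Nonempty :=
      ⟨_, D, ⟨hD1, hD2⟩, rfl⟩
    obtain ⟨E, hE, hc⟩ := Nat.sInf_mem hne
    have hc' : E.card = indDomNum G := hc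
    rw [← hc']
    exact hdom E hE.1

/-- Let `G` be a finite chordal graph.

(1) The following are equivalent: `G` has a NERD-function; `γ_ℝ(G) = γ(G)` (Q1); `γ_ℝ(G)` is the
packing number of `G`; `γ_ℝ(G) ≠ -∞`.

(2) For every NERD-function `f` of `G`, the packing number, the domination number and the
independent domination number of `G` are all equal to the weight of `f`. The relation of being
equal or adjacent is transitive on the support of `f` (so the support induces a disjoint union of
cliques, each of weight one), and there is an independent dominating set `D` of minimum size,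
inside the support, which meets the closed neighbourhood of every vertex of the support in
exactly one vertex. -/
theorem result {V : Type*} [Fintype V] (G : SimpleGraph V) (hG : IsChordal G) :
    (((∃ f : V → ℝ, IsNERD G f) ↔ realDomNum G = ((domNum G : ℕ) : EReal)) ∧
      ((∃ f : V → ℝ, IsNERD G f) ↔ realDomNum G = ((packNum G : ℕ) : EReal)) ∧
      ((∃ f : V → ℝ, IsNERD G f) ↔ realDomNum G ≠ ⊥)) ∧
    ∀ f : V → ℝ, IsNERD G f →
      ((packNum G : ℝ) = ∑ v, f v ∧ (domNum G : ℝ) = ∑ v, f v ∧ (indDomNum G : ℝ) = ∑ v, f v) ∧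
      (∀ a b c : V, 0 < f a → 0 < f b → 0 < f c → (a = b ∨ G.Adj a b) → (b = c ∨ G.Adj b c) →
        (a = c ∨ G.Adj a c)) ∧
      ∃ D : Finset V, IsIndDominating G D ∧ D.card = domNum G ∧ (∀ a ∈ D, 0 < f a) ∧
        ∀ v, 0 < f v → ∃ d ∈ D, (d = v ∨ G.Adj v d) ∧ ∀ d' ∈ D, (d' = v ∨ G.Adj v d') → d' = d := by
  have hbot : (¬ ∃ f : V → ℝ, IsNERD G f) → realDomNum G = ⊥ := realDomNum_eq_bot G
  have hcoe : ∀ (n : ℕ) (x : ℝ), (n : ℝ) = x → ((x : ℝ) : EReal) = ((n : ℕ) : EReal) := by
    intro n x h
    rw [← h]
    simp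
  refine ⟨⟨⟨?_, ?_⟩, ⟨?_, ?_⟩, ⟨?_, ?_⟩⟩, ?_⟩
  · rintro ⟨f, hf⟩
    rw [realDomNum_eq hf]
    exact hcoe _ _ (numbers hG hf).2.1
  · intro h
    by_contra hno
    rw [hbot hno] at h
    exact (EReal.bot_lt_coe (domNum G : ℝ)).ne (by simpa using h)
  · rintro ⟨f, hf⟩
    rw [realDomNum_eq hf]
    exact hcoe _ _ (numbers hG hf).1
  · intro h
    by_contra hno
    rw [hbot hno] at h
    exact (EReal.bot_lt_coe (packNum G : ℝ)).ne (by simpa using h)
  · rintro ⟨f, hf⟩
    rw [realDomNum_eq hf]
    exact EReal.coe_ne_bot _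
  · intro h
    by_contra hno
    exact h (hbot hno)
  · intro f hf
    have hn := numbers hG hf
    obtain ⟨hclq, ⟨D, hD1, hD0, hD2, hD4, hD3⟩, -⟩ := Pool.Agent.Y387.NE.core hG hf
    refine ⟨hn, ?_, D, ⟨hD1, hD2⟩, ?_, hD0, hD4⟩
    · intro a b c ha hb hc hab hbc
      by_cases hac : a = c
      · exact Or.inl hac
      · right
        refine hclq b hb a c ha hc ?_ ?_ hac
        · rcases hab with h | h
          · exact Or.inl h
          · exact Or.inr h.symm
        · rcases hbc with h | h
          · exact Or.inl h.symm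
          · exact Or.inr h
    · have h1 : (D.card : ℝ) = (domNum G : ℝ) := by rw [hD3, hn.2.1]
      exact_mod_cast h1

end Pool.Agent.Results.MP_24e13c_co.PackingEquality
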